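import Pool.Agent.helper81.NW.Spec

set_option autoImplicit false

namespace Pool.Agent.helper81.NW

open Pool.Agent.helper84.NR
open scoped Classical
open Finset

private theorem MAT_arith (a b : ℕ) (h : 2 * a + 2 * b ≤ a * b) (h0 : 1 ≤ b) : 8 ≤ a + b := by
  by_contra hc
  have ha : a < 8 := by omega
  have hb : b < 8 := by omega
  interval_cases a <;> omega

private theorem MAT_single {F : Type} (X Y : Finset F) (R EA : F → F → Prop)
    (hEA : ∀ A ∈ X, ∀ B ∈ Y, EA A B → R A B)
    (h1 : ∀ A ∈ X, (Y.filter (fun B => R A B)).card ≤ (Y.filter (fun B => EA A B)).card ∨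
      2 ≤ (Y.filter (fun B => EA A B)).card)
    (A : F) (hA : A ∈ X) (hc : (Y.filter (fun B => R A B)).card = 1) (B : F) (hB : B ∈ Y)
    (hR : R A B) : EA A B := by
  have hsub : Y.filter (fun B => EA A B) ⊆ Y.filter (fun B => R A B) := by
    intro b hb
    rw [mem_filter] at hb ⊢
    exact ⟨hb.1, hEA A hA b hb.1 hb.2⟩
  have hle := card_le_card hsub
  have heq : Y.filter (fun B => EA A B) = Y.filter (fun B => R A B) := by
    apply eq_of_subset_of_card_le hsub
    rcases h1 A hA with h | h <;> omega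
  have hm : B ∈ Y.filter (fun B => R A B) := mem_filter.2 ⟨hB, hR⟩
  rw [← heq] at hm
  exact (mem_filter.1 hm).2

theorem MAT : MAT_stmt := by
  intro F X Y R EA EB hX0 hEA hEB hrow hcol h1 h2 hd
  set X1 := X.filter (fun A => (Y.filter (fun B => R A B)).card = 1) with hX1
  set X2 := X.filter (fun A => ¬ (Y.filter (fun B => R A B)).card = 1) with hX2
  set Y1 := Y.filter (fun B => (X.filter (fun A => R A B)).card = 1) with hY1
  set Y2 := Y.filter (fun B => ¬ (X.filter (fun A => R A B)).card = 1) with hY2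
  have cX : X1.card + X2.card = X.card := card_filter_add_card_filter_not _
  have cY : Y1.card + Y2.card = Y.card := card_filter_add_card_filter_not _
  -- single lines
  have sA : ∀ A ∈ X1, ∀ B ∈ Y, R A B → EA A B := by
    intro A hA B hB hR
    rw [hX1, mem_filter] at hA
    exact MAT_single X Y R EA hEA h1 A hA.1 hA.2 B hB hR
  have sB : ∀ B ∈ Y1, ∀ A ∈ X, R A B → EB A B := by
    intro B hB A hA hR
    rw [hY1, mem_filter] at hB
    exact MAT_single Y X (fun B A => R A B) (fun B A => EB A B) (fun B hB A hA h => hEB A hA B hB h)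
      h2 B hB.1 hB.2 A hA hR
  have sAB : ∀ A ∈ X1, ∀ B ∈ Y1, ¬ R A B := by
    intro A hA B hB hR
    have hA' : A ∈ X := (mem_filter.1 hA).1
    have hB' : B ∈ Y := (mem_filter.1 hB).1
    exact hd A hA' B hB' ⟨sA A hA B hB' hR, sB B hB A hA' hR⟩
  have m2X : ∀ A ∈ X2, 2 ≤ (Y.filter (fun B => EA A B)).card := by
    intro A hA
    rw [hX2, mem_filter] at hA
    obtain ⟨B, hB, hR⟩ := hrow A hA.1
    have hpos : 0 < (Y.filter (fun B => R A B)).card := card_pos.2 ⟨B, mem_filter.2 ⟨hB, hR⟩⟩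
    rcases h1 A hA.1 with h | h
    · omega
    · exact h
  have m2Y : ∀ B ∈ Y2, 2 ≤ (X.filter (fun A => EB A B)).card := by
    intro B hB
    rw [hY2, mem_filter] at hB
    obtain ⟨A, hA, hR⟩ := hcol B hB.1
    have hpos : 0 < (X.filter (fun A => R A B)).card := card_pos.2 ⟨A, mem_filter.2 ⟨hA, hR⟩⟩
    rcases h2 B hB.1 with h | h
    · omega
    · exact h
  set S := (X ×ˢ Y).filter (fun p => R p.1 p.2) with hS
  set S1 := S.filter (fun p => p.1 ∈ X1) with hS1
  set S' := S.filter (fun p => ¬ p.1 ∈ X1) with hS'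
  set S2 := S'.filter (fun p => p.2 ∈ Y1) with hS2
  set S3 := S'.filter (fun p => ¬ p.2 ∈ Y1) with hS3
  have cS : S1.card + S'.card = S.card := card_filter_add_card_filter_not _
  have cS' : S2.card + S3.card = S'.card := card_filter_add_card_filter_not _
  have b1 : X1.card ≤ S1.card := by
    refine (card_le_card ?_).trans (card_image_le (s := S1) (f := Prod.fst))
    intro A hA
    have hA' : A ∈ X := (mem_filter.1 hA).1
    obtain ⟨B, hB, hR⟩ := hrow A hA'
    refine mem_image.2 ⟨(A, B), ?_, rfl⟩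
    exact mem_filter.2 ⟨mem_filter.2 ⟨mem_product.2 ⟨hA', hB⟩, hR⟩, hA⟩
  have b2 : Y1.card ≤ S2.card := by
    refine (card_le_card ?_).trans (card_image_le (s := S2) (f := Prod.snd))
    intro B hB
    have hB' : B ∈ Y := (mem_filter.1 hB).1
    obtain ⟨A, hA, hR⟩ := hcol B hB'
    refine mem_image.2 ⟨(A, B), ?_, rfl⟩
    refine mem_filter.2 ⟨mem_filter.2 ⟨mem_filter.2 ⟨mem_product.2 ⟨hA, hB'⟩, hR⟩, ?_⟩, hB⟩
    intro hA1
    exact sAB A hA1 B hB hR
  have b3 : 2 * X2.card + 2 * Y2.card ≤ S3.card := by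
    have hTA : 2 * X2.card ≤ ((X2 ×ˢ Y).filter (fun p => EA p.1 p.2)).card := by
      have e : ((X2 ×ˢ Y).filter (fun p => EA p.1 p.2)).card =
          ∑ A ∈ X2, ∑ B ∈ Y, (if EA A B then 1 else 0) := by
        rw [card_filter, sum_product]
      rw [e]
      have : ∑ A ∈ X2, 2 ≤ ∑ A ∈ X2, ∑ B ∈ Y, (if EA A B then 1 else 0) := by
        refine sum_le_sum fun A hA => ?_
        rw [← card_filter]
        exact m2X A hA
      rw [sum_const, smul_eq_mul] at this
      omega
    have hTB : 2 * Y2.card ≤ ((X ×ˢ Y2).filter (fun p => EB p.1 p.2)).card := by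
      have e : ((X ×ˢ Y2).filter (fun p => EB p.1 p.2)).card =
          ∑ B ∈ Y2, ∑ A ∈ X, (if EB A B then 1 else 0) := by
        rw [card_filter, sum_product_right]
      rw [e]
      have : ∑ B ∈ Y2, 2 ≤ ∑ B ∈ Y2, ∑ A ∈ X, (if EB A B then 1 else 0) := by
        refine sum_le_sum fun B hB => ?_
        rw [← card_filter]
        exact m2Y B hB
      rw [sum_const, smul_eq_mul] at this
      omega
    have hdis : Disjoint ((X2 ×ˢ Y).filter (fun p => EA p.1 p.2))
        ((X ×ˢ Y2).filter (fun p => EB p.1 p.2)) := by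
      rw [disjoint_left]
      intro p hp hq
      rw [mem_filter, mem_product] at hp hq
      exact hd p.1 hq.1.1 p.2 hp.1.2 ⟨hp.2, hq.2⟩
    have hsub : (X2 ×ˢ Y).filter (fun p => EA p.1 p.2) ∪ (X ×ˢ Y2).filter (fun p => EB p.1 p.2) ⊆
        S3 := by
      intro p hp
      rcases mem_union.1 hp with h | h
      · rw [mem_filter, mem_product] at h
        obtain ⟨⟨hpX, hpY⟩, hE⟩ := h
        have hpX' := (mem_filter.1 hpX)
        have hR := hEA p.1 hpX'.1 p.2 hpY hE
        refine mem_filter.2 ⟨mem_filter.2 ⟨mem_filter.2 ⟨mem_product.2 ⟨hpX'.1, hpY⟩, hR⟩, ?_⟩, ?_⟩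
        · intro hA1
          exact hpX'.2 (mem_filter.1 hA1).2
        · intro hB1
          exact hd p.1 hpX'.1 p.2 hpY ⟨hE, sB p.2 hB1 p.1 hpX'.1 hR⟩
      · rw [mem_filter, mem_product] at h
        obtain ⟨⟨hpX, hpY⟩, hE⟩ := h
        have hpY' := (mem_filter.1 hpY)
        have hR := hEB p.1 hpX p.2 hpY'.1 hE
        refine mem_filter.2 ⟨mem_filter.2 ⟨mem_filter.2 ⟨mem_product.2 ⟨hpX, hpY'.1⟩, hR⟩, ?_⟩, ?_⟩
        · intro hA1
          exact hd p.1 hpX p.2 hpY'.1 ⟨sA p.1 hA1 p.2 hpY'.1 hR, hE⟩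
        · intro hB1
          exact hpY'.2 (mem_filter.1 hB1).2
    have := card_le_card hsub
    rw [card_union_of_disjoint hdis] at this
    omega
  have b4 : S3.card ≤ X2.card * Y2.card := by
    rw [← card_product]
    refine card_le_card ?_
    intro p hp
    have h3 := mem_filter.1 hp
    have h4 := mem_filter.1 h3.1
    have h5 := mem_filter.1 h4.1
    have h6 := mem_product.1 h5.1
    refine mem_product.2 ⟨mem_filter.2 ⟨h6.1, ?_⟩, mem_filter.2 ⟨h6.2, ?_⟩⟩
    · intro h
      exact h4.2 (mem_filter.2 ⟨h6.1, h⟩)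
    · intro h
      exact h3.2 (mem_filter.2 ⟨h6.2, h⟩)
  have b5 : 1 ≤ Y2.card := by
    by_contra hc
    have hY2' : Y2.card = 0 := by omega
    have hX2' : X2.card = 0 := by
      have := b3.trans b4
      rw [hY2'] at this
      omega
    obtain ⟨A, hA⟩ := hX0
    have hA1 : A ∈ X1 := by
      by_contra hn
      have : A ∈ X2 := mem_filter.2 ⟨hA, fun h => hn (mem_filter.2 ⟨hA, h⟩)⟩
      have := card_pos.2 ⟨A, this⟩
      omega
    obtain ⟨B, hB, hR⟩ := hrow A hA
    have hB2 : B ∈ Y2 := mem_filter.2 ⟨hB, fun h => sAB A hA1 B (mem_filter.2 ⟨hB, h⟩) hR⟩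
    have := card_pos.2 ⟨B, hB2⟩
    omega
  have b6 := MAT_arith X2.card Y2.card (b3.trans b4) b5
  omega

end Pool.Agent.helper81.NW
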